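import Pool.Agent.H72.EN.Targets

/-!
# Row TEL: the telescope
-/

set_option autoImplicit false

open Finset Pool.Agent.H6.N4D Pool.Agent.H93.EB Pool.Agent.H28.EN Pool.Agent.H72.EN

namespace Pool.Agent.H85.ENL

theorem pf_TEL (hRMN : T_RMN) (hSWP : T_SWP) (hWT1 : T_WT1) (hWT2 : T_WT2) (hWT3 : T_WT3)
    (hWT4 : T_WT4) (hBLK : T_BLK) : T_TEL := by
  intro A B m₀ me η C δ E t u b r hA hB hm₀ hAm hme hη hη1 hC hδ ht hu htu hb hE hlev
  obtain ⟨T, hTa, hTt, hTj⟩ := hRMN t (A * me) δ fun i j hij hj => (htu i j hij hj).1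
  obtain ⟨U, hUa, hUu, hUj⟩ := hRMN u (A * me) δ fun i j hij hj => (htu i j hij hj).2
  obtain ⟨h, hh⟩ : ∃ h : ℝ, h = ∑ m ∈ Icc m₀ me, 1 / (m : ℝ) := ⟨_, rfl⟩
  have hw : ∀ m ∈ Icc m₀ me, 0 ≤ 1 / (m : ℝ) := fun m _ => by positivity
  have hh0 : 0 ≤ h := by rw [hh]; exact sum_nonneg hw
  have hT1 : T 0 - T (A * me) ≤ 1 := by
    obtain ⟨j, -, hj⟩ := hTj 0
    obtain ⟨j', -, hj'⟩ := hTj (A * me)
    rw [hj, hj']
    have := (ht j).2
    have := (ht j').1
    linarith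
  have hU1 : U 0 - U (A * me) ≤ 2 := by
    obtain ⟨j, -, hj⟩ := hUj 0
    obtain ⟨j', -, hj'⟩ := hUj (A * me)
    rw [hj, hj']
    have := (hu j).2
    have := (hu j').1
    linarith
  have hle : me ≤ A * me := Nat.le_mul_of_pos_left me (by omega)
  have hmul : ∀ m ∈ Icc m₀ me, A * m ≤ A * me := fun m hm =>
    Nat.mul_le_mul_left A (mem_Icc.1 hm).2
  have hAm' : ∀ m : ℕ, m ≤ A * m := fun m => Nat.le_mul_of_pos_left m (by omega)
  -- the inequality of one level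
  have hone : ∀ m ∈ Icc m₀ me, 1 / (m : ℝ) * (T (m - m / 500) - T m) ≤
      1 / (m : ℝ) * (T (A * m - m / 100) - T (A * m)) + η * (1 / (m : ℝ) * (T m - T (A * m))) +
        1 / (m : ℝ) * b m + C * (1 / (m : ℝ) * (U (m - 15) - U m)) + 1 / (m : ℝ) * r m +
        (2 + η + C) * δ * (1 / (m : ℝ)) := by
    intro m hm
    have h1 := hlev m hm
    have hmm := mem_Icc.1 hm
    have a1 := hTt (m - m / 500) (by omega)
    have a2 := hTt m (by omega)
    have a3 := hTt (A * m - m / 100) ((Nat.sub_le _ _).trans (hmul m hm))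
    have a4 := hTt (A * m) (hmul m hm)
    have a5 := hUu (m - 15) (by omega)
    have a6 := hUu m (by omega)
    have key : T (m - m / 500) - T m ≤ (T (A * m - m / 100) - T (A * m)) +
        η * (T m - T (A * m)) + b m + C * (U (m - 15) - U m) + r m + (2 + η + C) * δ := by
      have k1 : η * (t m - t (A * m)) ≤ η * (T m - T (A * m) + δ) :=
        mul_le_mul_of_nonneg_left (by linarith [a2.2, a4.1]) hη
      have k2 : C * (u (m - 15) - u m) ≤ C * (U (m - 15) - U m + δ) :=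
        mul_le_mul_of_nonneg_left (by linarith [a5.2, a6.1]) hC
      have k3 : (1 + η) * (t m - t (A * m)) = (t m - t (A * m)) + η * (t m - t (A * m)) := by ring
      rw [k3] at h1
      linarith [a1.1, a2.2, a3.2, a4.1]
    have h2 := mul_le_mul_of_nonneg_left key (hw m hm)
    refine h2.trans (le_of_eq ?_)
    ring
  have hsum := sum_le_sum hone
  rw [sum_add_distrib, sum_add_distrib, sum_add_distrib, sum_add_distrib, sum_add_distrib,
    ← mul_sum, ← mul_sum, ← mul_sum, ← hh] at hsum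
  -- the lower bound
  have b1 : 1 / 600 * (T m₀ - T (me - me / 500)) ≤
      ∑ m ∈ Icc m₀ me, 1 / (m : ℝ) * (T (m - m / 500) - T m) :=
    (hSWP (Icc m₀ me) (fun m => 1 / (m : ℝ)) T (fun m => m - m / 500) (fun m => m) hw
      (fun m _ => Nat.sub_le _ _) hTa).2 m₀ (me - me / 500) (1 / 600) hme
      fun j hj hj' => hWT1 m₀ me j hm₀ hj hj'
  -- the upper bounds
  have c1 : ∑ m ∈ Icc m₀ me, 1 / (m : ℝ) * (T (A * m - m / 100) - T (A * m)) ≤
      1 / (25 * A) * (T 0 - T (A * me)) :=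
    (hSWP (Icc m₀ me) (fun m => 1 / (m : ℝ)) T (fun m => A * m - m / 100) (fun m => A * m) hw
      (fun m _ => Nat.sub_le _ _) hTa).1 (A * me) (1 / (25 * A)) hmul
      fun j _ => hWT2 A m₀ me j hA hAm
  have c2 : ∑ m ∈ Icc m₀ me, 1 / (m : ℝ) * (T m - T (A * m)) ≤ A * (T 0 - T (A * me)) :=
    (hSWP (Icc m₀ me) (fun m => 1 / (m : ℝ)) T (fun m => m) (fun m => A * m) hw
      (fun m _ => hAm' m) hTa).1 (A * me) A hmul
      fun j _ => hWT3 A m₀ me j (by omega) (by omega)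
  have c3 : ∑ m ∈ Icc m₀ me, 1 / (m : ℝ) * (U (m - 15) - U m) ≤
      15 / m₀ * (U 0 - U (A * me)) :=
    (hSWP (Icc m₀ me) (fun m => 1 / (m : ℝ)) U (fun m => m - 15) (fun m => m) hw
      (fun m _ => Nat.sub_le _ _) hUa).1 (A * me) (15 / m₀)
      (fun m hm => (mem_Icc.1 hm).2.trans hle)
      fun j _ => hWT4 m₀ me j (by omega)
  have c4 : ∑ m ∈ Icc m₀ me, 1 / (m : ℝ) * b m ≤ 2 * B * E :=
    hBLK B m₀ me b E hB (by omega) hb hE
  have hA0 : (0 : ℝ) < A := by
    have : 0 < A := by omega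
    exact_mod_cast this
  have hm00 : (0 : ℝ) < m₀ := by
    have : 0 < m₀ := by omega
    exact_mod_cast this
  have d1 : 1 / (25 * (A : ℝ)) * (T 0 - T (A * me)) ≤ 1 / (25 * A) := by
    have := mul_le_mul_of_nonneg_left hT1 (by positivity : 0 ≤ 1 / (25 * (A : ℝ)))
    rw [mul_one] at this
    exact this
  have d2 : η * ∑ m ∈ Icc m₀ me, 1 / (m : ℝ) * (T m - T (A * m)) ≤ η * A := by
    have e1 : (A : ℝ) * (T 0 - T (A * me)) ≤ A * 1 := mul_le_mul_of_nonneg_left hT1 hA0.le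
    have e2 := mul_le_mul_of_nonneg_left (c2.trans e1) hη
    rw [mul_one] at e2
    exact e2
  have d3 : C * ∑ m ∈ Icc m₀ me, 1 / (m : ℝ) * (U (m - 15) - U m) ≤ C * (15 / m₀ * 2) :=
    mul_le_mul_of_nonneg_left
      (c3.trans (mul_le_mul_of_nonneg_left hU1 (by positivity : 0 ≤ 15 / (m₀ : ℝ)))) hC
  have e1 := (hTt m₀ (by omega)).2
  have e2 := (hTt (me - me / 500) (by omega)).1
  have e3 : (2 + η + C) * δ * h ≤ (3 + C) * δ * h := by
    refine mul_le_mul_of_nonneg_right (mul_le_mul_of_nonneg_right ?_ hδ) hh0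
    linarith
  have e4 : δ ≤ 600 * (3 + C) * δ := by
    have h1 : 1 ≤ 600 * (3 + C) := by linarith
    have h2 := mul_le_mul_of_nonneg_right h1 hδ
    rw [one_mul] at h2
    exact h2
  rw [← hh]
  have f1 : 24 / (A : ℝ) = 600 * (1 / (25 * A)) := by
    field_simp
    norm_num
  have f2 : 18000 * C / m₀ = 600 * (C * (15 / m₀ * 2)) := by ring
  have f3 : 600 * (3 + C) * δ * (1 + h) = 600 * (3 + C) * δ + 600 * ((3 + C) * δ * h) := by ring
  have f4 : 600 * η * A = 600 * (η * A) := by ring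
  have f5 : 1200 * B * E = 600 * (2 * B * E) := by ring
  rw [f1, f2, f3, f4, f5]
  linarith

end Pool.Agent.H85.ENL
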