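import Pool.Agent.H72.EN.Targets

/-!
# Row WT4
-/

set_option autoImplicit false

open Finset Pool.Agent.H6.N4D Pool.Agent.H93.EB Pool.Agent.H28.EN Pool.Agent.H72.EN

namespace Pool.Agent.H85.ENL

theorem pf_WT4 : T_WT4 := by
  intro m₀ me j hm
  have hm0 : (0 : ℝ) < m₀ := by exact_mod_cast hm
  have h1 : ∀ m ∈ (Icc m₀ me).filter (fun m => m - 15 ≤ j ∧ j < m), 1 / (m : ℝ) ≤ 1 / m₀ := by
    intro m hmm
    rw [mem_filter, mem_Icc] at hmm
    exact one_div_le_one_div_of_le hm0 (by exact_mod_cast hmm.1.1)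
  have h2 := sum_le_card_nsmul _ _ _ h1
  have h3 : ((Icc m₀ me).filter (fun m => m - 15 ≤ j ∧ j < m)).card ≤ 15 := by
    have h4 : (Icc m₀ me).filter (fun m => m - 15 ≤ j ∧ j < m) ⊆ Ioc j (j + 15) := by
      intro m hmm
      rw [mem_filter, mem_Icc] at hmm
      rw [mem_Ioc]
      omega
    have h5 := card_le_card h4
    rw [Nat.card_Ioc] at h5
    omega
  refine h2.trans ?_
  rw [nsmul_eq_mul, mul_one_div]
  refine div_le_div_of_nonneg_right ?_ hm0.le
  exact_mod_cast h3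

end Pool.Agent.H85.ENL
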